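import Pool.Agent.H77.BD.Targets

/-! Row CTG of the board `bct_modules` (problem MP_9d0bb7_lc): a set which is almost invariant under
translations has the rank of the group. -/

set_option autoImplicit false

namespace Pool.Agent.H7.BCT

open Set Matrix Pool.Agent.H77.BC Pool.Agent.H77.BD

theorem small_union {M : Type} {U : RU M} (hRKA : RKA U) {α : Type} [Cod M α] {X Y Z : Set α}
    {n : ℕ} (hX : U.D X) (hY : U.D Y) (hZ : U.D Z) (h1 : X.Nonempty → U.R X < n)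
    (h2 : Y.Nonempty → U.R Y < n) (hZXY : Z ⊆ X ∪ Y) (hne : Z.Nonempty) : U.R Z < n := by
  rcases X.eq_empty_or_nonempty with h | h
  · rw [h, empty_union] at hZXY
    exact (hRKA.mono hZ hY hne hZXY).trans_lt (h2 (hne.mono hZXY))
  · rcases Y.eq_empty_or_nonempty with h' | h'
    · rw [h', union_empty] at hZXY
      exact (hRKA.mono hZ hX hne hZXY).trans_lt (h1 h)
    · refine (hRKA.mono hZ (D_union hX hY) hne hZXY).trans_lt ?_
      rw [hRKA.union hX hY h h']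
      exact max_lt (h1 h) (h2 h')

theorem pf_CTG {M : Type} (U : RU M) (hRKA : RKA U) (hRKB : RKB U) : T_CTG U := by
  intro Γ _ _ _ Ω E hΩ hne hcl hE
  have hf : ∀ g : Γ, DFn U (fun z : Γ => z * g) := fun g => DFn_gmul DFn_id (DFn_const g)
  have hD1 : ∀ g : Γ, U.D {z | z * g ∈ Ω} := fun g => DFn_preim (hf g) hΩ
  have hD : ∀ g : Γ, U.D {z | z ∈ Ω ∧ z * g ∉ Ω} := fun g =>
    D_and (p := fun z => z ∈ Ω) (q := fun z => z * g ∉ Ω) hΩ (D_not (hD1 g))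
  have hDS : ∀ g : Γ, U.D {z | z ∈ Ω ∧ z * g ∈ Ω} := fun g =>
    D_and (p := fun z => z ∈ Ω) (q := fun z => z * g ∈ Ω) hΩ (hD1 g)
  have hone : Sm U Ω (1 : Γ) := by
    rintro ⟨z, hz, hz'⟩
    rw [mul_one] at hz'
    exact (hz' hz).elim
  have hmul : ∀ g₁ g₂ : Γ, Sm U Ω g₁ → Sm U Ω g₂ → Sm U Ω (g₁ * g₂) := by
    intro g₁ g₂ h1 h2 h3
    have hA : U.D {z | z * g₁ ∈ {z | z ∈ Ω ∧ z * g₂ ∉ Ω}} := DFn_preim (hf g₁) (hD g₂)
    refine small_union hRKA (hD g₁) hA (hD (g₁ * g₂)) h1 (fun hA0 => ?_) (fun z hz => ?_) h3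
    · have him : (fun z : Γ => z * g₁) '' {z | z * g₁ ∈ {z | z ∈ Ω ∧ z * g₂ ∉ Ω}} =
          {z | z ∈ Ω ∧ z * g₂ ∉ Ω} := by
        ext z
        constructor
        · rintro ⟨y, hy, rfl⟩
          exact hy
        · intro hz
          refine ⟨z * g₁⁻¹, ?_, ?_⟩
          · change z * g₁⁻¹ * g₁ ∈ {z | z ∈ Ω ∧ z * g₂ ∉ Ω}
            rwa [inv_mul_cancel_right]
          · exact inv_mul_cancel_right z g₁
      have hR := hRKB.inj hA (hf g₁) hA0 (fun y _ y' _ h => mul_right_cancel h)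
      rw [him] at hR
      rw [← hR]
      exact h2 (him ▸ hA0.image _)
    · by_cases hz1 : z * g₁ ∈ Ω
      · right
        refine ⟨hz1, ?_⟩
        have := hz.2
        rwa [← mul_assoc] at this
      · exact Or.inl ⟨hz.1, hz1⟩
  have hall : ∀ g : Γ, Sm U Ω g ∧ Sm U Ω g⁻¹ := by
    intro g
    have hg : g ∈ Subgroup.closure E := by
      rw [hcl]
      exact Subgroup.mem_top g
    induction hg using Subgroup.closure_induction with
    | mem x hx => exact ⟨(hE x hx).2, (hE _ (hE x hx).1).2⟩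
    | one => exact ⟨hone, by rw [inv_one]; exact hone⟩
    | mul x y _ _ ihx ihy =>
      exact ⟨hmul _ _ ihx.1 ihy.1, by rw [_root_.mul_inv_rev]; exact hmul _ _ ihy.2 ihx.2⟩
    | inv x _ ih => exact ⟨ih.2, by rw [inv_inv]; exact ih.1⟩
  have hsec : ∀ g : Γ, {z | z ∈ Ω ∧ z * g ∈ Ω}.Nonempty ∧
      U.R {z | z ∈ Ω ∧ z * g ∈ Ω} = U.R Ω := by
    intro g
    have hun : Ω = {z | z ∈ Ω ∧ z * g ∈ Ω} ∪ {z | z ∈ Ω ∧ z * g ∉ Ω} := by
      ext z
      constructor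
      · intro hz
        by_cases h : z * g ∈ Ω
        · exact Or.inl ⟨hz, h⟩
        · exact Or.inr ⟨hz, h⟩
      · rintro (h | h)
        · exact h.1
        · exact h.1
    rcases {z | z ∈ Ω ∧ z * g ∉ Ω}.eq_empty_or_nonempty with h | h
    · rw [h, union_empty] at hun
      rw [← hun]
      exact ⟨hne, rfl⟩
    · have h1 := (hall g).1 h
      rcases {z | z ∈ Ω ∧ z * g ∈ Ω}.eq_empty_or_nonempty with h' | h'
      · rw [h', empty_union] at hun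
        rw [← hun] at h1
        exact absurd h1 (lt_irrefl _)
      · refine ⟨h', ?_⟩
        have h2 := hRKA.union (hDS g) (hD g) h' h
        rw [← hun] at h2
        rcases max_cases (U.R {z | z ∈ Ω ∧ z * g ∈ Ω}) (U.R {z | z ∈ Ω ∧ z * g ∉ Ω}) with h3 | h3
        · rw [h2, h3.1]
        · rw [h3.1] at h2
          omega
  -- the set of pairs
  have hP : U.D {p : Γ × Γ | p.2 ∈ Ω ∧ p.2 * p.1 ∈ Ω} :=
    D_and (p := fun p : Γ × Γ => p.2 ∈ Ω) (q := fun p : Γ × Γ => p.2 * p.1 ∈ Ω)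
      (DFn_preim DFn_snd hΩ) (DFn_preim (DFn_gmul DFn_snd DFn_fst) hΩ)
  have hPne : {p : Γ × Γ | p.2 ∈ Ω ∧ p.2 * p.1 ∈ Ω}.Nonempty := by
    obtain ⟨z, hz⟩ := hne
    exact ⟨(1, z), hz, by rw [mul_one]; exact hz⟩
  have h1 := hRKB.sec_eq (n := U.R Ω) hP hPne (fun a _ => (hsec a).2)
  have h2 : {a : Γ | ∃ b, (a, b) ∈ {p : Γ × Γ | p.2 ∈ Ω ∧ p.2 * p.1 ∈ Ω}} = univ := by
    ext a
    refine ⟨fun _ => trivial, fun _ => ?_⟩
    obtain ⟨b, hb⟩ := (hsec a).1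
    exact ⟨b, hb⟩
  rw [h2] at h1
  have hF : DFn U (fun p : Γ × Γ => (p.2, p.2 * p.1)) :=
    DFn_pair DFn_snd (DFn_gmul DFn_snd DFn_fst)
  have h3 := hRKB.inj hP hF hPne (by
    rintro ⟨g, z⟩ _ ⟨g', z'⟩ _ h
    have e1 : z = z' := congrArg Prod.fst h
    have e2 : z * g = z' * g' := congrArg Prod.snd h
    rw [e1] at e2
    exact Prod.ext (mul_left_cancel e2) e1)
  have h4 : (fun p : Γ × Γ => (p.2, p.2 * p.1)) '' {p : Γ × Γ | p.2 ∈ Ω ∧ p.2 * p.1 ∈ Ω} ⊆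
      Ω ×ˢ Ω := by
    rintro _ ⟨p, hp, rfl⟩
    exact ⟨hp.1, hp.2⟩
  have h5 := hRKA.mono (DFn_image hF hP) (D_prod hΩ hΩ) (hPne.image _) h4
  rw [h3, hRKB.prod hΩ hΩ hne hne] at h5
  omega

end Pool.Agent.H7.BCT
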